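import Mathlib

namespace Pool.Agent.Results.MP_a92470_an.Pairs

open Matrix ComplexOrder ComplexConjugate

variable {X : Type}

/-- Positive semidefinite functions. -/
def IsKer (k : X → X → ℂ) : Prop :=
  ∀ (N : ℕ) (x : Fin N → X), (Matrix.of fun i j => k (x i) (x j)).PosSemidef

/-- The block matrix `[(I - W_i W_j^*) s(x_i, x_j)]`. -/
def pick (s : X → X → ℂ) {n N : ℕ} (x : Fin N → X) (W : Fin N → Matrix (Fin n) (Fin n) ℂ) :
    Matrix (Fin N × Fin n) (Fin N × Fin n) ℂ :=
  Matrix.of fun p q => (1 - W p.1 * (W q.1)ᴴ) p.2 q.2 * s (x p.1) (x q.1)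

/-- `Φ` is a multiplier of `H(s) ⊗ ℂ^n` of norm at most one. -/
def Contr (s : X → X → ℂ) {n : ℕ} (Φ : X → Matrix (Fin n) (Fin n) ℂ) : Prop :=
  ∀ (N : ℕ) (x : Fin N → X), (pick s x fun i => Φ (x i)).PosSemidef

/-- Kernels with the complete Pick property. -/
def CP (s : X → X → ℂ) : Prop :=
  IsKer s ∧ ∀ n ≥ 1, ∀ (N : ℕ) (x : Fin N → X) (W : Fin N → Matrix (Fin n) (Fin n) ℂ),
    Function.Injective x → (pick s x W).PosSemidef → ∃ Φ, Contr s Φ ∧ ∀ i, Φ (x i) = W i

/-- `s` is a certificate for `k`. -/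
def Cert (k s : X → X → ℂ) : Prop := CP s ∧ ∃ h, IsKer h ∧ ∀ x y, k x y = (1 - h x y) * s x y

/-- Minimality: for every certificate `t` the quotient `t / s` is (where defined) a kernel. -/
def Minimal (k s : X → X → ℂ) : Prop :=
  ∀ t, Cert k t → ∃ q, IsKer q ∧ ∀ x y, s x y ≠ 0 → q x y = t x y / s x y

lemma two {k : X → X → ℂ} (hk : IsKer k) (x y : X) :
    0 ≤ k x x ∧ k y x = conj (k x y) ∧ 0 ≤ k x x * k y y - k x y * k y x := by
  have h := hk 2 ![x, y]
  refine ⟨h.diag_nonneg (i := 0), (h.1.apply 1 0).symm, ?_⟩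
  simpa [det_fin_two] using h.det_nonneg

lemma row_zero {k : X → X → ℂ} (hk : IsKer k) {x : X} (h : k x x = 0) (y : X) :
    k x y = 0 ∧ k y x = 0 := by
  obtain ⟨-, b, c⟩ := two hk x y
  rw [h, b, zero_mul, zero_sub, Complex.mul_conj, neg_nonneg] at c
  have : Complex.normSq (k x y) = 0 :=
    le_antisymm (by exact_mod_cast c) (Complex.normSq_nonneg _)
  rw [b, Complex.normSq_eq_zero.1 this]
  simp

lemma scale {ι : Type} [Fintype ι] [DecidableEq ι] {M : Matrix ι ι ℂ} (h : M.PosSemidef)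
    (d : ι → ℝ) : (Matrix.of fun p q => (d p : ℂ) * d q * M p q).PosSemidef := by
  convert h.mul_mul_conjTranspose_same (diagonal fun p => (d p : ℂ)) using 1
  ext p q
  simp [diagonal_conjTranspose]
  ring

lemma cp_dyad {k s : X → X → ℂ} (hs : CP s) (δ : X → ℝ) (h : ∀ x y, k x y = δ x * δ y * s x y) :
    CP k := by
  classical
  refine ⟨fun N x => by simpa only [h, of_apply] using scale (hs.1 N x) fun i => δ (x i),
    fun n hn N x W hx hW => ?_⟩
  let e := Fintype.equivFin {i // δ (x i) ≠ 0}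
  obtain ⟨Φ, h1, h2⟩ := hs.2 n hn _ (fun j => x (e.symm j)) (fun j => W (e.symm j))
    (hx.comp (Subtype.val_injective.comp e.symm.injective)) (by
      convert scale (hW.submatrix fun p : Fin _ × Fin n => ((e.symm p.1).1, p.2))
        fun p : Fin _ × Fin n => (δ (x (e.symm p.1)))⁻¹ using 1
      ext p q
      have a : (δ (x (e.symm p.1)) : ℂ) ≠ 0 := by exact_mod_cast (e.symm p.1).2
      have b : (δ (x (e.symm q.1)) : ℂ) ≠ 0 := by exact_mod_cast (e.symm q.1).2
      simp only [pick, of_apply, submatrix_apply, h]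
      push_cast
      field_simp)
  let Ψ : X → Matrix (Fin n) (Fin n) ℂ := fun y => if hy : ∃ i, x i = y then W hy.choose else Φ y
  have h3 : ∀ i, Ψ (x i) = W i := fun i => by
    have hy : ∃ j, x j = x i := ⟨i, rfl⟩
    simp only [Ψ, dif_pos hy, hx hy.choose_spec]
  have h4 : ∀ y, δ y ≠ 0 → Ψ y = Φ y := fun y hy => by
    by_cases h' : ∃ i, x i = y
    · obtain ⟨i, rfl⟩ := h'
      simpa [h3] using (h2 (e ⟨i, hy⟩)).symm
    · exact dif_neg h'
  refine ⟨Ψ, fun M y => ?_, h3⟩
  convert scale (h1 M y) fun p => δ (y p.1) using 1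
  ext p q
  simp only [pick, of_apply, h]
  by_cases a : δ (y p.1) = 0
  · simp [a]
  by_cases b : δ (y q.1) = 0
  · simp [b]
  rw [h4 _ a, h4 _ b]
  ring

lemma cp_pair {k : X → X → ℂ} (hk : IsKer k) {a b : X} (hX : ∀ z, z = a ∨ z = b) : CP k := by
  classical
  refine ⟨hk, fun n _ N x W hx hW => ?_⟩
  by_cases h1 : ∀ z, k z z ≠ 0 → ∃ i, x i = z
  · let Ψ : X → Matrix (Fin n) (Fin n) ℂ := fun y => if hy : ∃ i, x i = y then W hy.choose else 0
    have h3 : ∀ i, Ψ (x i) = W i := fun i => by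
      have hy : ∃ j, x j = x i := ⟨i, rfl⟩
      simp only [Ψ, dif_pos hy, hx hy.choose_spec]
    refine ⟨Ψ, fun M y => ?_, h3⟩
    rcases isEmpty_or_nonempty (Fin N) with hN | hN
    · convert PosSemidef.zero
      ext p q
      have : k (y p.1) (y p.1) = 0 := by
        by_contra hc
        exact hN.elim (h1 _ hc).choose
      simp [pick, (row_zero hk this _).1]
    · choose! g hg using h1
      convert scale (hW.submatrix fun p : Fin M × Fin n => (g (y p.1), p.2))
        fun p => if k (y p.1) (y p.1) = 0 then 0 else 1 using 1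
      ext p q
      simp only [pick, of_apply, submatrix_apply]
      split_ifs with c d d
      · simp [(row_zero hk c _).1]
      · simp [(row_zero hk c _).1]
      · simp [(row_zero hk d _).2]
      · rw [← h3, ← h3, hg _ c, hg _ d]
        simp
  · push Not at h1
    obtain ⟨z, z0, hz⟩ := h1
    have sub : ∀ i j, i = j := fun i j => hx (by
      have := hz i
      have := hz j
      rcases hX z with e | e <;> rcases hX (x i) with f | f <;> rcases hX (x j) with g | g <;>
        simp_all)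
    have const : ∀ V : Matrix (Fin n) (Fin n) ℂ, (1 - V * Vᴴ).PosSemidef → Contr k fun _ => V :=
      fun V hV M y => by
        have e : (pick k y fun _ => V) =
            kroneckerMap (· * ·) (Matrix.of fun i j => k (y i) (y j)) (1 - V * Vᴴ) := by
          ext p q
          simp [pick, mul_comm]
        exact e ▸ (hk M y).kronecker hV
    rcases isEmpty_or_nonempty (Fin N) with hN | ⟨⟨i⟩⟩
    · exact ⟨_, const 0 (by simpa using PosSemidef.one), hN.elim⟩
    by_cases h0 : k (x i) (x i) = 0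
    · refine ⟨fun y => if y = x i then W i else 0, fun M y => ?_, fun j => by simp [sub j i]⟩
      convert const 0 (by simpa using PosSemidef.one) M y using 1
      ext p q
      simp only [pick, of_apply]
      by_cases c : y p.1 = x i
      · simp [c, (row_zero hk h0 _).1]
      by_cases d : y q.1 = x i
      · simp [d, (row_zero hk h0 _).2]
      simp [c, d]
    · refine ⟨_, const (W i) ?_, fun j => by rw [sub j i]⟩
      convert (hW.submatrix fun p => (i, p)).smul (inv_nonneg.2 (two hk (x i) (x i)).1) using 1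
      ext p q
      simp only [pick, of_apply, submatrix_apply, Matrix.smul_apply, smul_eq_mul]
      field_simp

lemma eqn {a b : ℝ} {c : ℂ} (a0 : 0 ≤ a) (b0 : 0 ≤ b) (a1 : a ≤ 1) (b1 : b ≤ 1)
    (h1 : Complex.normSq c ≤ a * b) (h2 : Complex.normSq (1 - c) ≤ (1 - a) * (1 - b)) :
    a = b ∧ c = a := by
  simp only [Complex.normSq_apply, Complex.sub_re, Complex.one_re, Complex.sub_im,
    Complex.one_im] at h1 h2
  have h3 : c.re ≤ (a + b) / 2 :=
    (abs_le_of_sq_le_sq' (by nlinarith [sq_nonneg (a - b), sq_nonneg c.im]) (by positivity)).2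
  have h4 : 1 - c.re ≤ 1 - (a + b) / 2 :=
    (abs_le_of_sq_le_sq' (by nlinarith [sq_nonneg (a - b), sq_nonneg c.im]) (by linarith)).2
  have h5 : c.re = (a + b) / 2 := by linarith
  rw [h5] at h1
  have h6 : a = b := by nlinarith [sq_nonneg (a - b), sq_nonneg c.im]
  refine ⟨h6, Complex.ext (by simp [h5, h6]) ?_⟩
  have : c.im * c.im = 0 := by nlinarith [sq_nonneg (a - b), sq_nonneg c.im]
  simpa using this

theorem result {X : Type} (k s : X → X → ℂ) (hk : IsKer k) (hs : Cert k s)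
    (hmin : ∀ Y : Set X, Y.Nonempty →
      Minimal (fun x y : Y => k x y) fun x y : Y => s x y) :
    CP k ∧ ∃ δ : X → ℂ, ∀ x y, k x y = δ x * conj (δ y) * s x y := by
  obtain ⟨hs, h, hh, e⟩ := hs
  have key : ∀ x y, k x y = √(1 - (h x x).re) * √(1 - (h y y).re) * s x y := fun x y => by
    by_cases s0 : s x y = 0
    · simp [e, s0]
    have sx : s x x ≠ 0 := fun c => s0 (row_zero hs.1 c y).1
    have sy : s y y ≠ 0 := fun c => s0 (row_zero hs.1 c x).2
    have s1 : s y x ≠ 0 := by simpa [(two hs.1 x y).2.1] using s0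
    let a : ({x, y} : Set X) := ⟨x, by simp⟩
    let b : ({x, y} : Set X) := ⟨y, by simp⟩
    obtain ⟨q, hq, hq'⟩ := hmin {x, y} ⟨x, by simp⟩ (fun x y => k x y)
      ⟨cp_pair (a := a) (b := b) (fun N z => hk N fun i => z i)
        fun z => z.2.imp Subtype.ext Subtype.ext, 0, fun _ _ => PosSemidef.zero, by simp⟩
    have q' : ∀ u v, s u.1 v.1 ≠ 0 → q u v = 1 - h u v := fun u v c => by
      rw [hq' u v c, e, mul_div_cancel_right₀ _ c]
    obtain ⟨p1, -, p3⟩ := two hq a b
    obtain ⟨p2, -⟩ := two hq b a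
    obtain ⟨r1, r2, r3⟩ := two hh x y
    obtain ⟨r4, -⟩ := two hh y x
    rw [q' a a sx] at p1
    rw [q' b b sy] at p2
    rw [q' a a sx, q' b b sy, q' a b s0, q' b a s1] at p3
    simp only [a, b] at p1 p2 p3
    obtain ⟨α, a0, hα⟩ : ∃ α : ℝ, 0 ≤ α ∧ h x x = α :=
      ⟨_, (Complex.nonneg_iff.1 r1).1, Complex.ext rfl (Complex.nonneg_iff.1 r1).2.symm⟩
    obtain ⟨β, b0, hβ⟩ : ∃ α : ℝ, 0 ≤ α ∧ h y y = α :=
      ⟨_, (Complex.nonneg_iff.1 r4).1, Complex.ext rfl (Complex.nonneg_iff.1 r4).2.symm⟩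
    have c1 : 1 - conj (h x y) = conj (1 - h x y) := by simp
    rw [r2, c1, Complex.mul_conj, hα, hβ] at p3
    rw [r2, Complex.mul_conj, hα, hβ] at r3
    rw [hα] at p1
    rw [hβ] at p2
    have a1 : α ≤ 1 := sub_nonneg.1 (by exact_mod_cast p1)
    obtain ⟨f1, f2⟩ := eqn a0 b0 a1 (sub_nonneg.1 (by exact_mod_cast p2))
      (sub_nonneg.1 (by exact_mod_cast r3)) (sub_nonneg.1 (by exact_mod_cast p3))
    rw [e, f2, hα, hβ, ← f1, Complex.ofReal_re, ← Complex.ofReal_mul,
      Real.mul_self_sqrt (sub_nonneg.2 a1)]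
    simp
  exact ⟨cp_dyad hs _ key, fun x => √(1 - (h x x).re), fun x y => by simp [key x y]⟩

end Pool.Agent.Results.MP_a92470_an.Pairs
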